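import Pool.Agent.Helper96.MP.Defs

set_option autoImplicit false

namespace Pool.Agent.Helper96.MP

open Complex MeasureTheory Filter Topology
open scoped MatrixGroups

theorem min_isOpen_UH : IsOpen UH := by
  have : UH = Complex.im ⁻¹' Set.Ioi 0 := rfl
  rw [this]
  exact isOpen_Ioi.preimage Complex.continuous_im

theorem min_diffAt {u : ℂ → ℝ} (hu : ContDiffOn ℝ (⊤ : ℕ∞) u UH) {z : ℂ} (hz : z ∈ UH) :
    DifferentiableAt ℝ u z :=
  (hu.differentiableOn (by simp)).differentiableAt (min_isOpen_UH.mem_nhds hz)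

theorem min_cont_fderiv {u : ℂ → ℝ} (hu : ContDiffOn ℝ (⊤ : ℕ∞) u UH) (c : ℂ) :
    ContinuousOn (fun z => fderiv ℝ u z c) UH := by
  have h := hu.continuousOn_fderiv_of_isOpen min_isOpen_UH (by simp)
  exact h.clm_apply continuousOn_const

theorem min_cont_DD {u v : ℂ → ℝ} (hu : ContDiffOn ℝ (⊤ : ℕ∞) u UH)
    (hv : ContDiffOn ℝ (⊤ : ℕ∞) v UH) : ContinuousOn (DD u v) UH := by
  unfold DD ux uy
  exact ((min_cont_fderiv hu 1).mul (min_cont_fderiv hv 1)).add
    ((min_cont_fderiv hu I).mul (min_cont_fderiv hv I))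

theorem min_abs_DD (u v : ℂ → ℝ) (z : ℂ) : |DD u v z| ≤ DD u u z + DD v v z := by
  unfold DD
  rw [abs_le]
  constructor <;> nlinarith [sq_nonneg (ux u z + ux v z), sq_nonneg (uy u z + uy v z),
    sq_nonneg (ux u z - ux v z), sq_nonneg (uy u z - uy v z), sq_nonneg (ux u z),
    sq_nonneg (ux v z), sq_nonneg (uy u z), sq_nonneg (uy v z)]

theorem min_DD_nonneg (u : ℂ → ℝ) (z : ℂ) : 0 ≤ DD u u z := by
  unfold DD
  nlinarith [sq_nonneg (ux u z), sq_nonneg (uy u z)]

theorem min_meas_UH : MeasurableSet UH := min_isOpen_UH.measurableSet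

theorem min_integrable {N : ℕ} {W : ℂ → ℝ} {ρ ρ' : SL(2, ℤ) → ℝ} {u v : ℂ → ℝ}
    (hW : WOK N W) (hu : Adm N W ρ u) (hv : Adm N W ρ' v) :
    IntegrableOn (fun z => W z * DD u v z) UH := by
  refine Integrable.mono' (hu.fin.add hv.fin) ?_ ?_
  · exact (hW.meas.aestronglyMeasurable).mul
      ((min_cont_DD hu.smooth hv.smooth).aestronglyMeasurable min_meas_UH)
  · refine Eventually.of_forall fun z => ?_
    have h1 := min_abs_DD u v z
    have h2 := hW.nonneg z
    simp only [Pi.add_apply]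
    rw [norm_mul, Real.norm_of_nonneg h2, Real.norm_eq_abs, ← mul_add]
    exact mul_le_mul_of_nonneg_left h1 h2

theorem min_DD_comb {u v : ℂ → ℝ} (hu : ContDiffOn ℝ (⊤ : ℕ∞) u UH)
    (hv : ContDiffOn ℝ (⊤ : ℕ∞) v UH) (a b : ℝ) {z : ℂ} (hz : z ∈ UH) :
    DD (fun w => a * u w + b * v w) (fun w => a * u w + b * v w) z =
      a ^ 2 * DD u u z + 2 * a * b * DD u v z + b ^ 2 * DD v v z := by
  have h1 := min_diffAt hu hz
  have h2 := min_diffAt hv hz
  have hd : fderiv ℝ (fun w => a * u w + b * v w) z = a • fderiv ℝ u z + b • fderiv ℝ v z := by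
    have e1 := (h1.hasFDerivAt.const_mul a).add (h2.hasFDerivAt.const_mul b)
    exact e1.fderiv
  unfold DD ux uy
  rw [hd]
  simp only [add_apply, smul_apply, smul_eq_mul]
  ring

theorem min_comb {N : ℕ} {W : ℂ → ℝ} {ρ ρ' : SL(2, ℤ) → ℝ} {u v : ℂ → ℝ}
    (hW : WOK N W) (hu : Adm N W ρ u) (hv : Adm N W ρ' v) (a b : ℝ) :
    Adm N W (fun g => a * ρ g + b * ρ' g) (fun w => a * u w + b * v w) ∧
    ∫ z in UH, W z * DD (fun w => a * u w + b * v w) (fun w => a * u w + b * v w) z =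
      a ^ 2 * (∫ z in UH, W z * DD u u z) + 2 * a * b * (∫ z in UH, W z * DD u v z) +
        b ^ 2 * (∫ z in UH, W z * DD v v z) := by
  have hpt : ∀ z ∈ UH, W z * DD (fun w => a * u w + b * v w) (fun w => a * u w + b * v w) z =
      a ^ 2 * (W z * DD u u z) + 2 * a * b * (W z * DD u v z) + b ^ 2 * (W z * DD v v z) := by
    intro z hz
    rw [min_DD_comb hu.smooth hv.smooth a b hz]
    ring
  have hi1 := hu.fin
  have hi2 := min_integrable hW hu hv
  have hi3 := hv.fin
  have hI : IntegrableOn (fun z => a ^ 2 * (W z * DD u u z) + 2 * a * b * (W z * DD u v z) +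
      b ^ 2 * (W z * DD v v z)) UH :=
    ((hi1.const_mul (a ^ 2)).add (hi2.const_mul (2 * a * b))).add (hi3.const_mul (b ^ 2))
  refine ⟨⟨?_, ?_, ?_⟩, ?_⟩
  · exact (contDiffOn_const.mul hu.smooth).add (contDiffOn_const.mul hv.smooth)
  · intro g hg z hz
    simp only [hu.eqv g hg z hz, hv.eqv g hg z hz]
    ring
  · exact hI.congr_fun (fun z hz => (hpt z hz).symm) min_meas_UH
  · rw [setIntegral_congr_fun min_meas_UH hpt]
    have h12 : Integrable (fun z => a ^ 2 * (W z * DD u u z) + 2 * a * b * (W z * DD u v z))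
        (volume.restrict UH) := (hi1.const_mul (a ^ 2)).add (hi2.const_mul (2 * a * b))
    have h3 : Integrable (fun z => b ^ 2 * (W z * DD v v z)) (volume.restrict UH) :=
      hi3.const_mul (b ^ 2)
    rw [integral_add h12 h3, integral_add (hi1.const_mul (a ^ 2)) (hi2.const_mul (2 * a * b)),
      integral_const_mul, integral_const_mul, integral_const_mul]

theorem st_MIN : ST_MIN := by
  intro N W ρ u0 hN hW hu0
  let Q : (ℂ → ℝ) → ℝ := fun u => ∫ z in UH, W z * DD u u z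
  have hQ0 : ∀ u, 0 ≤ Q u := fun u =>
    setIntegral_nonneg min_meas_UH fun z _ => mul_nonneg (hW.nonneg z) (min_DD_nonneg u z)
  let S : Set ℝ := Q '' {u | Adm N W ρ u}
  have hSne : S.Nonempty := ⟨_, u0, hu0, rfl⟩
  have hSbd : BddBelow S := ⟨0, by rintro _ ⟨u, _, rfl⟩; exact hQ0 u⟩
  set m := sInf S with hm
  have hmle : ∀ u, Adm N W ρ u → m ≤ Q u := fun u hu => csInf_le hSbd ⟨u, hu, rfl⟩
  have hex : ∀ j : ℕ, ∃ u, Adm N W ρ u ∧ Q u ≤ m + 1 / ((j : ℝ) + 1) := by
    intro j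
    have hpos : 0 < 1 / ((j : ℝ) + 1) := by positivity
    obtain ⟨_, ⟨u, hu, rfl⟩, hlt⟩ := exists_lt_of_csInf_lt hSne
      (show sInf S < m + 1 / ((j : ℝ) + 1) by linarith)
    exact ⟨u, hu, hlt.le⟩
  choose u hu hQu using hex
  refine ⟨u, hu, ?_, ?_, ?_⟩
  · intro ε hε
    obtain ⟨J, hJ⟩ := exists_nat_gt (4 / ε)
    refine ⟨J, fun i j hi hj => ?_⟩
    have hd := (min_comb hW (hu i) (hu j) 1 (-1)).2
    have hs := min_comb hW (hu i) (hu j) (1 / 2) (1 / 2)
    have hρ : (fun g => 1 / 2 * ρ g + 1 / 2 * ρ g) = ρ := by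
      funext g; ring
    have hsum := hs.1
    rw [hρ] at hsum
    have hlow := hmle _ hsum
    have hsE := hs.2
    have hfun : (fun w => u i w - u j w) = (fun w => 1 * u i w + -1 * u j w) := by
      funext w; ring
    rw [hfun, hd]
    have h1 := hQu i
    have h2 := hQu j
    simp only [Q] at hlow h1 h2
    rw [hsE] at hlow
    have hi' : 1 / ((i : ℝ) + 1) ≤ 1 / ((J : ℝ) + 1) := by
      apply one_div_le_one_div_of_le (by positivity)
      have : (J : ℝ) ≤ i := by exact_mod_cast hi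
      linarith
    have hj' : 1 / ((j : ℝ) + 1) ≤ 1 / ((J : ℝ) + 1) := by
      apply one_div_le_one_div_of_le (by positivity)
      have : (J : ℝ) ≤ j := by exact_mod_cast hj
      linarith
    have hJ' : 4 * (1 / ((J : ℝ) + 1)) ≤ ε := by
      rw [div_lt_iff₀ hε] at hJ
      rw [mul_one_div, div_le_iff₀ (by positivity)]
      nlinarith
    linarith
  · intro v hv
    have hbound : ∀ j, (∫ z in UH, W z * DD (u j) v z) ^ 2 ≤ 1 / ((j : ℝ) + 1) * (Q v + 1) := by
      intro j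
      set x := ∫ z in UH, W z * DD (u j) v z with hx
      have hc := min_comb hW (hu j) hv 1 (-x / (Q v + 1))
      have hρ : (fun g => 1 * ρ g + -x / (Q v + 1) * 0) = ρ := by
        funext g; ring
      have h1 := hc.1
      rw [hρ] at h1
      have h2 := hmle _ h1
      simp only [Q] at h2
      rw [hc.2] at h2
      have h3 := hQu j
      simp only [Q] at h3
      have hQv : 0 ≤ Q v := hQ0 v
      have hQv' : Q v = ∫ z in UH, W z * DD v v z := rfl
      rw [← hQv'] at h2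
      rw [← hx] at h2
      have he : 0 < Q v + 1 := by linarith
      have h4 : 2 * 1 * (-x / (Q v + 1)) * x + (-x / (Q v + 1)) ^ 2 * Q v ≤
          -(x ^ 2 / (Q v + 1)) := by
        have : 2 * 1 * (-x / (Q v + 1)) * x + (-x / (Q v + 1)) ^ 2 * Q v =
            -(x ^ 2 / (Q v + 1)) - x ^ 2 / (Q v + 1) ^ 2 := by
          field_simp
          ring
        rw [this]
        have : 0 ≤ x ^ 2 / (Q v + 1) ^ 2 := by positivity
        linarith
      have h5 : x ^ 2 / (Q v + 1) ≤ 1 / ((j : ℝ) + 1) := by linarith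
      rwa [div_le_iff₀ he] at h5
    have hlim : Tendsto (fun j : ℕ => 1 / ((j : ℝ) + 1) * (Q v + 1)) atTop (𝓝 0) := by
      have := (tendsto_one_div_add_atTop_nhds_zero_nat (𝕜 := ℝ)).mul_const (Q v + 1)
      rwa [zero_mul] at this
    have hsq : Tendsto (fun j : ℕ => (∫ z in UH, W z * DD (u j) v z) ^ 2) atTop (𝓝 0) :=
      squeeze_zero (fun j => sq_nonneg _) hbound hlim
    rw [tendsto_zero_iff_abs_tendsto_zero]
    have h6 := hsq.sqrt
    rw [Real.sqrt_zero] at h6
    refine h6.congr fun j => ?_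
    rw [Real.sqrt_sq_eq_abs]
    rfl
  · refine ⟨m + 1, fun j => (hQu j).trans ?_⟩
    have : 1 / ((j : ℝ) + 1) ≤ 1 := by
      rw [div_le_one (by positivity)]
      have : (0 : ℝ) ≤ j := Nat.cast_nonneg j
      linarith
    linarith

end Pool.Agent.Helper96.MP
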