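import Pool.Agent.Helper9.MP.Lat
import Pool.Agent.Helper34.MP.MIN

set_option autoImplicit false

/-!
# HAB1: the real part of the primitive of a cusp form is orthogonal to admissible invariant functions
-/

namespace Pool.Agent.Helper96.MP

open Complex MeasureTheory Filter Topology
open scoped MatrixGroups

/-- derivatives of the real part of a holomorphic function -/
theorem hab1_re {F : ℂ → ℂ} {c z : ℂ} (h : HasDerivAt F c z) :
    ux (fun z => (F z).re) z = c.re ∧ uy (fun z => (F z).re) z = -c.im := by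
  have h1 : HasFDerivAt F ((ContinuousLinearMap.toSpanSingleton ℂ c).restrictScalars ℝ) z :=
    h.hasFDerivAt.restrictScalars ℝ
  have h2 := Complex.reCLM.hasFDerivAt.comp z h1
  have h3 : fderiv ℝ (fun z => (F z).re) z
      = Complex.reCLM.comp ((ContinuousLinearMap.toSpanSingleton ℂ c).restrictScalars ℝ) :=
    h2.fderiv
  unfold ux uy
  rw [h3]
  constructor
  · simp
  · simp

theorem hab1_cc {F : ℂ → ℂ} {c z : ℂ} (h : HasDerivAt F c z) :
    cc (fun z => (F z).re) z = c := by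
  unfold cc
  rw [(hab1_re h).1, (hab1_re h).2]
  apply Complex.ext
  · simp
  · simp

theorem hab1_norm_cc (u : ℂ → ℝ) (z : ℂ) : ‖cc u z‖ ^ 2 = DD u u z := by
  unfold cc DD
  rw [← Complex.normSq_eq_norm_sq, Complex.normSq_apply]
  simp

theorem hab1_sub {u v : ℂ → ℝ} (hu : ContDiffOn ℝ (⊤ : ℕ∞) u UH)
    (hv : ContDiffOn ℝ (⊤ : ℕ∞) v UH) {z : ℂ} (hz : z ∈ UH) :
    cc (fun w => u w - v w) z = cc u z - cc v z := by
  have h1 := min_diffAt hu hz
  have h2 := min_diffAt hv hz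
  have hd : fderiv ℝ (fun w => u w - v w) z = fderiv ℝ u z - fderiv ℝ v z :=
    (h1.hasFDerivAt.sub h2.hasFDerivAt).fderiv
  unfold cc ux uy
  rw [hd]
  simp only [sub_apply]
  push_cast
  ring

theorem hab1_DD_sub {u v φ : ℂ → ℝ} (hu : ContDiffOn ℝ (⊤ : ℕ∞) u UH)
    (hv : ContDiffOn ℝ (⊤ : ℕ∞) v UH) {z : ℂ} (hz : z ∈ UH) :
    DD (fun w => u w - v w) φ z = DD u φ z - DD v φ z := by
  have h1 := min_diffAt hu hz
  have h2 := min_diffAt hv hz
  have hd : fderiv ℝ (fun w => u w - v w) z = fderiv ℝ u z - fderiv ℝ v z :=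
    (h1.hasFDerivAt.sub h2.hasFDerivAt).fderiv
  unfold DD ux uy
  rw [hd]
  simp only [sub_apply]
  ring

theorem hab1_adm (hQDIF : ST_QDIF) (hFLIM : ST_FLIM) (hPET : ST_PET) {N : ℕ} {W : ℂ → ℝ}
    {b : ℕ → ℂ} (hN : 1 ≤ N) (hW : WOK N W) (hb : Cusp N b) :
    Adm N W (fun g => (FC b (g 0 0) (g 1 0) - FC b 1 0).re) (fun z => (Fs b z).re) := by
  have hder := (hQDIF N b hN hb).2.2.1
  refine ⟨?_, ?_, ?_⟩
  · have h1 : DifferentiableOn ℂ (Fs b) UH := fun z hz =>
      (hder z hz).differentiableAt.differentiableWithinAt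
    have h2 : ContDiffOn ℂ (⊤ : ℕ∞) (Fs b) UH := h1.contDiffOn min_isOpen_UH
    exact Complex.reCLM.contDiff.comp_contDiffOn (h2.restrict_scalars ℝ)
  · intro g hg z hz
    have h := (hFLIM N b hN hb).2.2.2.1 _ _ _ _ (Lib.g0_of_mem hg) z hz
    have h2 : Fs b (mob g z) = Fs b z + (FC b (g 0 0) (g 1 0) - FC b 1 0) := by
      rw [← h]
      unfold mob
      ring
    simp only [h2, Complex.add_re]
  · obtain ⟨C0, -, hP⟩ := hPET
    have h1 := (hP N W hN hW b b b hb hb hb).1
    have h2 : IntegrableOn (fun z => 4 * Real.pi ^ 2 *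
        ((W z : ℂ) * (qs b z * (starRingEnd ℂ) (qs b z))).re) UH :=
      (Integrable.re h1).const_mul _
    refine h2.congr_fun ?_ min_meas_UH
    intro z hz
    have h3 : DD (fun z => (Fs b z).re) (fun z => (Fs b z).re) z
        = 4 * Real.pi ^ 2 * ‖qs b z‖ ^ 2 := by
      rw [← hab1_norm_cc, hab1_cc (hder z hz), norm_mul, norm_mul, norm_mul, Complex.norm_I,
        Complex.norm_real, Real.norm_of_nonneg Real.pi_pos.le]
      have : ‖(2 : ℂ)‖ = 2 := by simp
      rw [this]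
      ring
    simp only [h3]
    rw [Complex.mul_conj, Complex.normSq_eq_norm_sq, ← Complex.ofReal_mul, Complex.ofReal_re]
    ring

/-- the limit of a minimizing sequence -/
theorem hab1_lim (hQDIF : ST_QDIF) (hFLIM : ST_FLIM) (hMIN : ST_MIN) (hLIM : ST_LIM)
    (hEQV : ST_EQV) (hCSP : ST_CSP) (hQEXP : ST_QEXP) (hPER : ST_PER) (hINJ : ST_INJ)
    (hFCL : ST_FCL) {N : ℕ} {W : ℂ → ℝ}
    {b : ℕ → ℂ} (hN : 1 ≤ N) (hW : WOK N W) (hb : Cusp N b)
    (hadm0 : Adm N W (fun g => (FC b (g 0 0) (g 1 0) - FC b 1 0).re) (fun z => (Fs b z).re)) :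
    ∃ u : ℕ → ℂ → ℝ, (∀ j, Adm N W (fun g => (FC b (g 0 0) (g 1 0) - FC b 1 0).re) (u j)) ∧
      (∀ v : ℂ → ℝ, Adm N W (fun _ => 0) v →
        Tendsto (fun j => ∫ z in UH, W z * DD (u j) v z) atTop (𝓝 0)) ∧
      (∃ B : ℝ, ∀ j, ∫ z in UH, W z * DD (u j) (u j) z ≤ B) ∧
      (∀ z0 ∈ UH, ∃ r : ℝ, 0 < r ∧ Metric.closedBall z0 r ⊆ UH ∧
        Tendsto (fun j => ∫ z in Metric.ball z0 r,
          ‖cc (u j) z - cc (fun z => (Fs b z).re) z‖ ^ 2) atTop (𝓝 0)) := by
  obtain ⟨u, hadm, hcauchy, htest, hB⟩ := hMIN N W _ _ hN hW hadm0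
  obtain ⟨h, hhol, hloc⟩ := hLIM N W _ u hN hW hadm hcauchy htest
  obtain ⟨hinv, hint⟩ := hEQV N W _ u h hN hW hadm hB hhol hloc
  obtain ⟨B, hbd⟩ := hCSP N W h hN hW hhol hinv hint
  have h2pi : (2 * (Real.pi : ℂ) * I) ≠ 0 := Complex.two_pi_I_ne_zero
  have hn2 : 0 < ‖(2 * (Real.pi : ℂ) * I)‖ := norm_pos_iff.mpr h2pi
  have hmk : ∀ p q r s : ℤ, G0 N p q r s → ∃ g : SL(2, ℤ), g ∈ CongruenceSubgroup.Gamma0 N ∧
      g 0 0 = p ∧ g 0 1 = q ∧ g 1 0 = r ∧ g 1 1 = s := by
    intro p q r s ⟨h1, h2⟩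
    refine ⟨⟨!![p, q; r, s], by rw [Matrix.det_fin_two_of]; exact h1⟩, ?_, rfl, rfl, rfl, rfl⟩
    exact Lib.mem_of_dvd h2
  obtain ⟨b', hb', hqs⟩ := hQEXP N (fun z => h z / (2 * (Real.pi : ℂ) * I)) hN
    (hhol.div_const _)
    (by
      intro τ hτ p q r s hg
      obtain ⟨g, hgm, e1, e2, e3, e4⟩ := hmk p q r s hg
      have := hinv g hgm τ hτ
      unfold mob jj at this
      rw [e1, e2, e3, e4] at this
      rw [this]; ring)
    (by
      refine ⟨B / ‖(2 * (Real.pi : ℂ) * I)‖, ?_⟩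
      intro τ hτ
      rw [norm_div, ← mul_div_assoc]
      exact div_le_div_of_nonneg_right (hbd τ hτ) hn2.le)
  have hder : ∀ z ∈ UH, HasDerivAt (Fs b') (h z) z := by
    intro z hz
    have := (hQDIF N b' hN hb').2.2.1 z hz
    rw [hqs z hz, mul_div_cancel₀ _ h2pi] at this
    exact this
  have hper := hPER N W _ u h (Fs b') hN hadm hder hhol hloc hinv
  have hper2 : ∀ p q r s : ℤ, G0 N p q r s →
      (FC b' p r - FC b' 1 0).re = (FC b p r - FC b 1 0).re := by
    intro p q r s hg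
    obtain ⟨g, hgm, e1, e2, e3, e4⟩ := hmk p q r s hg
    have hI : Complex.I ∈ UH := by simp [UH]
    have h1 := hper g hgm Complex.I hI
    have h2 := (hFLIM N b' hN hb').2.2.2.1 p q r s hg Complex.I hI
    unfold mob at h1
    rw [e1, e2, e3, e4, h2] at h1
    exact h1
  have hneg := (hFCL N b b' (-1) hN hb hb').2
  have hsum := hFCL N b' (fun n => (-1 : ℂ) * b n) 1 hN hb' hneg.1
  have hz := hINJ N _ hN hsum.1 (by
    intro p q r s hg
    rw [hsum.2.2.1, hsum.2.2.1, hneg.2.2.1, hneg.2.2.1]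
    have := hper2 p q r s hg
    simp only [Complex.sub_re, Complex.add_re, Complex.mul_re, Complex.neg_re, Complex.one_re,
      Complex.neg_im, Complex.one_im] at this ⊢
    linarith)
  have hbb : b' = b := by
    funext n
    have := hz n
    linear_combination this
  refine ⟨u, hadm, htest, hB, fun z0 hz0 => ?_⟩
  obtain ⟨r, hr, hsub, hT⟩ := hloc z0 hz0
  refine ⟨r, hr, hsub, ?_⟩
  refine hT.congr fun j => ?_
  refine setIntegral_congr_fun measurableSet_ball fun z hz => ?_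
  have hzU : z ∈ UH := hsub (Metric.ball_subset_closedBall hz)
  have h5 := hder z hzU
  rw [hbb] at h5
  simp only [hab1_cc h5]

/-- local convergence in `L²` on compact sets -/
theorem hab1_cpt {w : ℕ → ℂ → ℝ} (hw : ∀ j, ContDiffOn ℝ (⊤ : ℕ∞) (w j) UH)
    (hloc : ∀ z0 ∈ UH, ∃ r : ℝ, 0 < r ∧ Metric.closedBall z0 r ⊆ UH ∧
        Tendsto (fun j => ∫ z in Metric.ball z0 r, DD (w j) (w j) z) atTop (𝓝 0))
    {K : Set ℂ} (hK : IsCompact K) (hKU : K ⊆ UH) :
    Tendsto (fun j => ∫ z in K, DD (w j) (w j) z) atTop (𝓝 0) := by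
  have hint : ∀ (j : ℕ) (S : Set ℂ), IsCompact S → S ⊆ UH →
      IntegrableOn (DD (w j) (w j)) S := fun j S hS hSU =>
    ((min_cont_DD (hw j) (hw j)).mono hSU).integrableOn_compact hS
  have key : Tendsto (fun j => ∫⁻ z in K, ENNReal.ofReal (DD (w j) (w j) z)) atTop (𝓝 0) := by
    refine hK.induction_on (p := fun S => Tendsto (fun j => ∫⁻ z in S,
      ENNReal.ofReal (DD (w j) (w j) z)) atTop (𝓝 0)) ?_ ?_ ?_ ?_
    · simp
    · intro s t hst ht
      exact tendsto_of_tendsto_of_tendsto_of_le_of_le tendsto_const_nhds ht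
        (fun _ => zero_le) (fun j => lintegral_mono_set hst)
    · intro s t hs ht
      have hst := hs.add ht
      rw [add_zero] at hst
      exact tendsto_of_tendsto_of_tendsto_of_le_of_le tendsto_const_nhds hst
        (fun _ => zero_le) (fun j => lintegral_union_le _ _ _)
    · intro z0 hz0
      obtain ⟨r, hr, hsub, hT⟩ := hloc z0 (hKU hz0)
      refine ⟨Metric.ball z0 r, mem_nhdsWithin_of_mem_nhds (Metric.ball_mem_nhds z0 hr), ?_⟩
      have h1 : ∀ j, ∫⁻ z in Metric.ball z0 r, ENNReal.ofReal (DD (w j) (w j) z)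
          = ENNReal.ofReal (∫ z in Metric.ball z0 r, DD (w j) (w j) z) := by
        intro j
        rw [ofReal_integral_eq_lintegral_ofReal]
        · exact (hint j _ (isCompact_closedBall z0 r) hsub).mono_set
            Metric.ball_subset_closedBall
        · exact Eventually.of_forall fun z => min_DD_nonneg _ _
      simp only [h1]
      have h2 := ENNReal.tendsto_ofReal hT
      rwa [ENNReal.ofReal_zero] at h2
  have h3 : ∀ j, ∫ z in K, DD (w j) (w j) z
      = (∫⁻ z in K, ENNReal.ofReal (DD (w j) (w j) z)).toReal := by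
    intro j
    rw [← ofReal_integral_eq_lintegral_ofReal (hint j K hK hKU)
      (Eventually.of_forall fun z => min_DD_nonneg _ _), ENNReal.toReal_ofReal]
    exact integral_nonneg fun z => min_DD_nonneg _ _
  simp only [h3]
  have h4 := (ENNReal.tendsto_toReal ENNReal.zero_ne_top).comp key
  rw [ENNReal.toReal_zero] at h4
  exact h4

/-- weighted Cauchy inequality -/
theorem hab1_cs (u v : ℂ → ℝ) (z : ℂ) {t : ℝ} (ht : 0 < t) :
    |DD u v z| ≤ (1 / (2 * t)) * DD u u z + (t / 2) * DD v v z := by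
  have h : ∀ x y : ℝ, |x * y| ≤ (1 / (2 * t)) * x ^ 2 + (t / 2) * y ^ 2 := by
    intro x y
    have h1 : (1 / (2 * t)) * x ^ 2 + (t / 2) * y ^ 2 - x * y
        = (1 / (2 * t)) * (x - t * y) ^ 2 := by
      field_simp
      ring
    have h2 : (1 / (2 * t)) * x ^ 2 + (t / 2) * y ^ 2 + x * y
        = (1 / (2 * t)) * (x + t * y) ^ 2 := by
      field_simp
      ring
    have h3 : 0 ≤ (1 / (2 * t)) * (x - t * y) ^ 2 := by positivity
    have h4 : 0 ≤ (1 / (2 * t)) * (x + t * y) ^ 2 := by positivity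
    rw [abs_le]
    constructor <;> linarith
  unfold DD
  have h1 := h (ux u z) (ux v z)
  have h2 := h (uy u z) (uy v z)
  refine (abs_add_le _ _).trans ?_
  nlinarith

/-- compact exhaustion of the upper half plane -/
def hab1_K (n : ℕ) : Set ℂ := {z | 1 / ((n : ℝ) + 1) ≤ z.im ∧ ‖z‖ ≤ n}

theorem hab1_K_compact (n : ℕ) : IsCompact (hab1_K n) := by
  have hcl : IsClosed (hab1_K n) :=
    (isClosed_le continuous_const Complex.continuous_im).inter
      (isClosed_le continuous_norm continuous_const)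
  refine (isCompact_closedBall (0 : ℂ) n).of_isClosed_subset hcl ?_
  intro z hz
  simpa using hz.2

theorem hab1_K_sub (n : ℕ) : hab1_K n ⊆ UH := by
  intro z hz
  have h1 : 0 < 1 / ((n : ℝ) + 1) := by positivity
  exact lt_of_lt_of_le h1 hz.1

theorem hab1_K_mono : Monotone hab1_K := by
  intro m n hmn z hz
  have h : (m : ℝ) ≤ n := by exact_mod_cast hmn
  refine ⟨le_trans ?_ hz.1, hz.2.trans h⟩
  apply one_div_le_one_div_of_le (by positivity)
  linarith

theorem hab1_K_union : ⋃ n, hab1_K n = UH := by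
  apply Set.Subset.antisymm
  · exact Set.iUnion_subset hab1_K_sub
  · intro z hz
    have hz' : 0 < z.im := hz
    obtain ⟨n, hn⟩ := exists_nat_ge (max (1 / z.im) ‖z‖)
    refine Set.mem_iUnion.mpr ⟨n, ?_, (le_max_right _ _).trans hn⟩
    have h1 : 1 / z.im ≤ n := (le_max_left _ _).trans hn
    rw [div_le_iff₀ (by positivity)]
    rw [div_le_iff₀ hz'] at h1
    nlinarith

/-- weak convergence to zero -/
theorem hab1_weak {N : ℕ} {W : ℂ → ℝ} (hW : WOK N W) {w : ℕ → ℂ → ℝ} {φ : ℂ → ℝ}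
    (hw : ∀ j, Adm N W (fun _ => 0) (w j)) (hφ : Adm N W (fun _ => 0) φ) {B : ℝ}
    (hB : ∀ j, ∫ z in UH, W z * DD (w j) (w j) z ≤ B)
    (hloc : ∀ z0 ∈ UH, ∃ r : ℝ, 0 < r ∧ Metric.closedBall z0 r ⊆ UH ∧
        Tendsto (fun j => ∫ z in Metric.ball z0 r, DD (w j) (w j) z) atTop (𝓝 0)) :
    Tendsto (fun j => ∫ z in UH, W z * DD (w j) φ z) atTop (𝓝 0) := by
  rw [Metric.tendsto_atTop]
  intro ε hε
  have hB0 : 0 ≤ B := le_trans (setIntegral_nonneg min_meas_UH fun z _ =>
    mul_nonneg (hW.nonneg z) (min_DD_nonneg _ z)) (hB 0)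
  set F : ℝ := ∫ z in UH, W z * DD φ φ z with hF
  have hF0 : 0 ≤ F := setIntegral_nonneg min_meas_UH fun z _ =>
    mul_nonneg (hW.nonneg z) (min_DD_nonneg _ z)
  set lam : ℝ := ε / (4 * (B + 1)) with hlam
  have hlam0 : 0 < lam := by positivity
  set mu : ℝ := ε / (4 * (F + 1)) with hmu
  have hmu0 : 0 < mu := by positivity
  -- the compact set
  have hT := tendsto_setIntegral_of_monotone (μ := volume) (f := fun z => W z * DD φ φ z)
    (fun n => (hab1_K_compact n).measurableSet) hab1_K_mono (by rw [hab1_K_union]; exact hφ.fin)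
  rw [hab1_K_union, ← hF] at hT
  have hη : 0 < ε * lam / 4 := by positivity
  obtain ⟨n, hn⟩ := ((Metric.tendsto_atTop.mp hT) _ hη)
  have hn' := hn n le_rfl
  rw [Real.dist_eq] at hn'
  set K := hab1_K n with hK
  have hKc : IsCompact K := hab1_K_compact n
  have hKU : K ⊆ UH := hab1_K_sub n
  have hKm : MeasurableSet K := hKc.measurableSet
  have htail : ∫ z in UH \ K, W z * DD φ φ z ≤ ε * lam / 4 := by
    rw [setIntegral_sdiff hKm hφ.fin hKU, ← hF]
    have := (abs_lt.mp hn').1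
    linarith
  have hcpt := hab1_cpt (fun j => (hw j).smooth) hloc hKc hKU
  have hη2 : 0 < ε * mu / 4 := by positivity
  obtain ⟨J, hJ⟩ := ((Metric.tendsto_atTop.mp hcpt) _ hη2)
  refine ⟨J, fun j hj => ?_⟩
  have hj' := hJ j hj
  rw [Real.dist_eq, sub_zero] at hj'
  have hKs : ∫ z in K, DD (w j) (w j) z ≤ ε * mu / 4 := (le_abs_self _).trans hj'.le
  rw [Real.dist_eq, sub_zero]
  have hgi : IntegrableOn (fun z => W z * DD (w j) φ z) UH := min_integrable hW (hw j) hφ
  have hsplit : ∫ z in UH, W z * DD (w j) φ z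
      = (∫ z in K, W z * DD (w j) φ z) + ∫ z in UH \ K, W z * DD (w j) φ z := by
    rw [setIntegral_sdiff hKm hgi hKU]
    ring
  have hDDK : IntegrableOn (fun z => DD (w j) (w j) z) K :=
    ((min_cont_DD (hw j).smooth (hw j).smooth).mono hKU).integrableOn_compact hKc
  have hfK : IntegrableOn (fun z => W z * DD φ φ z) K := hφ.fin.mono_set hKU
  have h1 : |∫ z in K, W z * DD (w j) φ z| ≤ ε / 8 + ε / 8 := by
    have hb : ∀ z ∈ K, |W z * DD (w j) φ z|
        ≤ (1 / (2 * mu)) * DD (w j) (w j) z + (mu / 2) * (W z * DD φ φ z) := by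
      intro z _
      have hW0 := hW.nonneg z
      have hW1 := hW.le_one z
      rw [abs_mul, abs_of_nonneg hW0]
      have h2 := hab1_cs (w j) φ z hmu0
      have h3 := min_DD_nonneg (w j) z
      have h4 : W z * ((1 / (2 * mu)) * DD (w j) (w j) z) ≤ (1 / (2 * mu)) * DD (w j) (w j) z := by
        have : 0 ≤ (1 / (2 * mu)) * DD (w j) (w j) z := by positivity
        nlinarith
      calc W z * |DD (w j) φ z|
          ≤ W z * ((1 / (2 * mu)) * DD (w j) (w j) z + (mu / 2) * DD φ φ z) :=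
            mul_le_mul_of_nonneg_left h2 hW0
        _ = W z * ((1 / (2 * mu)) * DD (w j) (w j) z) + (mu / 2) * (W z * DD φ φ z) := by ring
        _ ≤ _ := by linarith
    have h5 : |∫ z in K, W z * DD (w j) φ z| ≤ ∫ z in K, ((1 / (2 * mu)) * DD (w j) (w j) z
        + (mu / 2) * (W z * DD φ φ z)) := by
      refine (abs_integral_le_integral_abs).trans ?_
      refine setIntegral_mono_on (hgi.mono_set hKU).abs
        ((hDDK.const_mul _).add (hfK.const_mul _)) hKm hb
    rw [integral_add (hDDK.const_mul _) (hfK.const_mul _), integral_const_mul,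
      integral_const_mul] at h5
    have h6 : ∫ z in K, W z * DD φ φ z ≤ F := setIntegral_mono_set hφ.fin
      (ae_restrict_of_forall_mem min_meas_UH fun z _ =>
        mul_nonneg (hW.nonneg z) (min_DD_nonneg _ z)) hKU.eventuallyLE
    have h7 : (1 / (2 * mu)) * ∫ z in K, DD (w j) (w j) z ≤ ε / 8 := by
      calc (1 / (2 * mu)) * ∫ z in K, DD (w j) (w j) z ≤ (1 / (2 * mu)) * (ε * mu / 4) :=
            mul_le_mul_of_nonneg_left hKs (by positivity)
        _ = ε / 8 := by field_simp; ring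
    have h8 : (mu / 2) * ∫ z in K, W z * DD φ φ z ≤ ε / 8 := by
      calc (mu / 2) * ∫ z in K, W z * DD φ φ z ≤ (mu / 2) * F :=
            mul_le_mul_of_nonneg_left h6 (by positivity)
        _ ≤ (mu / 2) * (F + 1) := mul_le_mul_of_nonneg_left (by linarith) (by positivity)
        _ = ε / 8 := by rw [hmu]; field_simp; ring
    linarith
  have hDm : MeasurableSet (UH \ K) := min_meas_UH.diff hKm
  have hwD : IntegrableOn (fun z => W z * DD (w j) (w j) z) (UH \ K) :=
    (hw j).fin.mono_set Set.sdiff_subset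
  have hfD : IntegrableOn (fun z => W z * DD φ φ z) (UH \ K) :=
    hφ.fin.mono_set Set.sdiff_subset
  have h2 : |∫ z in UH \ K, W z * DD (w j) φ z| ≤ ε / 8 + ε / 8 := by
    have hb : ∀ z ∈ UH \ K, |W z * DD (w j) φ z|
        ≤ (lam / 2) * (W z * DD (w j) (w j) z) + (1 / (2 * lam)) * (W z * DD φ φ z) := by
      intro z _
      have hW0 := hW.nonneg z
      rw [abs_mul, abs_of_nonneg hW0]
      have h2 := hab1_cs (w j) φ z (t := 1 / lam) (by positivity)
      have e1 : 1 / (2 * (1 / lam)) = lam / 2 := by field_simp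
      have e2 : 1 / lam / 2 = 1 / (2 * lam) := by field_simp
      rw [e1, e2] at h2
      calc W z * |DD (w j) φ z|
          ≤ W z * ((lam / 2) * DD (w j) (w j) z + (1 / (2 * lam)) * DD φ φ z) :=
            mul_le_mul_of_nonneg_left h2 hW0
        _ = _ := by ring
    have h5 : |∫ z in UH \ K, W z * DD (w j) φ z| ≤ ∫ z in UH \ K,
        ((lam / 2) * (W z * DD (w j) (w j) z) + (1 / (2 * lam)) * (W z * DD φ φ z)) := by
      refine (abs_integral_le_integral_abs).trans ?_
      refine setIntegral_mono_on (hgi.mono_set Set.sdiff_subset).abs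
        ((hwD.const_mul _).add (hfD.const_mul _)) hDm hb
    rw [integral_add (hwD.const_mul _) (hfD.const_mul _), integral_const_mul,
      integral_const_mul] at h5
    have h6 : ∫ z in UH \ K, W z * DD (w j) (w j) z ≤ B := by
      refine le_trans ?_ (hB j)
      exact setIntegral_mono_set (hw j).fin
        (ae_restrict_of_forall_mem min_meas_UH fun z _ =>
          mul_nonneg (hW.nonneg z) (min_DD_nonneg _ z)) Set.sdiff_subset.eventuallyLE
    have h7 : (lam / 2) * ∫ z in UH \ K, W z * DD (w j) (w j) z ≤ ε / 8 := by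
      calc (lam / 2) * ∫ z in UH \ K, W z * DD (w j) (w j) z ≤ (lam / 2) * B :=
            mul_le_mul_of_nonneg_left h6 (by positivity)
        _ ≤ (lam / 2) * (B + 1) := mul_le_mul_of_nonneg_left (by linarith) (by positivity)
        _ = ε / 8 := by rw [hlam]; field_simp; ring
    have h8 : (1 / (2 * lam)) * ∫ z in UH \ K, W z * DD φ φ z ≤ ε / 8 := by
      calc (1 / (2 * lam)) * ∫ z in UH \ K, W z * DD φ φ z ≤ (1 / (2 * lam)) * (ε * lam / 4) :=
            mul_le_mul_of_nonneg_left htail (by positivity)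
        _ = ε / 8 := by field_simp; ring
    linarith
  rw [hsplit]
  refine lt_of_le_of_lt (abs_add_le _ _) ?_
  linarith

/-- HAB1 -/
theorem st_HAB1 (hQDIF : ST_QDIF) (hFLIM : ST_FLIM) (hMIN : ST_MIN) (hLIM : ST_LIM)
    (hEQV : ST_EQV) (hCSP : ST_CSP) (hQEXP : ST_QEXP) (hPER : ST_PER) (hINJ : ST_INJ)
    (hFCL : ST_FCL) (hPET : ST_PET) : ST_HAB1 := by
  intro N W b hN hW hb
  have hadm0 := hab1_adm hQDIF hFLIM hPET hN hW hb
  refine ⟨hadm0, fun φ hφ => ?_⟩
  obtain ⟨u, hadm, htest, ⟨B, hB⟩, hloc⟩ := hab1_lim hQDIF hFLIM hMIN hLIM hEQV hCSP hQEXP hPER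
    hINJ hFCL hN hW hb hadm0
  set ub : ℂ → ℝ := fun z => (Fs b z).re with hub
  set w : ℕ → ℂ → ℝ := fun j z => u j z - ub z with hwdef
  have hfun : ∀ j, w j = fun z => 1 * u j z + -1 * ub z := by
    intro j
    funext z
    simp only [hwdef]
    ring
  have hwadm : ∀ j, Adm N W (fun _ => 0) (w j) := by
    intro j
    have h := (min_comb hW (hadm j) hadm0 1 (-1)).1
    rw [← hfun j] at h
    have e : (fun g : SL(2, ℤ) => 1 * (FC b (g 0 0) (g 1 0) - FC b 1 0).re
        + -1 * (FC b (g 0 0) (g 1 0) - FC b 1 0).re) = fun _ => 0 := by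
      funext g
      ring
    rw [e] at h
    exact h
  set Eb : ℝ := ∫ z in UH, W z * DD ub ub z with hEb
  have hBw : ∀ j, ∫ z in UH, W z * DD (w j) (w j) z ≤ 2 * B + 2 * Eb := by
    intro j
    have h1 := (min_comb hW (hadm j) hadm0 1 (-1)).2
    have h2 := (min_comb hW (hadm j) hadm0 1 1).2
    have h3 : 0 ≤ ∫ z in UH, W z * DD (fun w => 1 * u j w + 1 * ub w)
        (fun w => 1 * u j w + 1 * ub w) z := setIntegral_nonneg min_meas_UH fun z _ =>
      mul_nonneg (hW.nonneg z) (min_DD_nonneg _ z)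
    have h4 := hB j
    rw [hfun j]
    rw [h1]
    rw [h2] at h3
    linarith
  have hwloc : ∀ z0 ∈ UH, ∃ r : ℝ, 0 < r ∧ Metric.closedBall z0 r ⊆ UH ∧
      Tendsto (fun j => ∫ z in Metric.ball z0 r, DD (w j) (w j) z) atTop (𝓝 0) := by
    intro z0 hz0
    obtain ⟨r, hr, hsub, hT⟩ := hloc z0 hz0
    refine ⟨r, hr, hsub, hT.congr fun j => ?_⟩
    refine setIntegral_congr_fun measurableSet_ball fun z hz => ?_
    have hzU : z ∈ UH := hsub (Metric.ball_subset_closedBall hz)
    rw [← hab1_sub (hadm j).smooth hadm0.smooth hzU, hab1_norm_cc]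
  have hweak := hab1_weak hW hwadm hφ hBw hwloc
  have h1 := (htest φ hφ).sub hweak
  rw [sub_zero] at h1
  have h2 : ∀ j, (∫ z in UH, W z * DD (u j) φ z) - (∫ z in UH, W z * DD (w j) φ z)
      = ∫ z in UH, W z * DD ub φ z := by
    intro j
    rw [← integral_sub (min_integrable hW (hadm j) hφ) (min_integrable hW (hwadm j) hφ)]
    refine setIntegral_congr_fun min_meas_UH fun z hz => ?_
    have h3 := hab1_DD_sub (φ := φ) (hadm j).smooth hadm0.smooth hz
    rw [show DD (w j) φ z = DD (u j) φ z - DD ub φ z from h3]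
    ring
  simp only [h2] at h1
  exact tendsto_nhds_unique tendsto_const_nhds h1

end Pool.Agent.Helper96.MP
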