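import Pool.Agent.Helper96.MP.Defs

set_option autoImplicit false

namespace Pool.Agent.Helper96.MP

open Complex MeasureTheory Filter Topology
open scoped MatrixGroups

noncomputable def tf_e (τ : ℂ) : ℂ := exp (2 * (Real.pi : ℂ) * I * τ)

theorem tf_term (k : ℕ) (τ : ℂ) :
    exp (2 * (Real.pi : ℂ) * I * (k : ℂ) * τ) = exp (2 * (Real.pi : ℂ) * I * τ) ^ k := by
  rw [← Complex.exp_nat_mul]
  congr 1
  ring

theorem tf_summable {M : ℕ} {b : ℕ → ℂ} (hb : Cusp M b) {τ : ℂ} (hτ : τ ∈ UH) :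
    Summable (fun k : ℕ => b k / (k : ℂ) * exp (2 * (Real.pi : ℂ) * I * (k : ℂ) * τ)) := by
  refine Summable.of_norm_bounded (hb.sum τ hτ).norm fun k => ?_
  rw [norm_mul, norm_mul, norm_div]
  refine mul_le_mul_of_nonneg_right ?_ (norm_nonneg _)
  rcases Nat.eq_zero_or_pos k with rfl | hk
  · simp
  · refine div_le_self (norm_nonneg _) ?_
    rw [Complex.norm_natCast]
    exact_mod_cast hk

theorem tf_rootsum (d k : ℕ) (hd : 0 < d) :
    ∑ j ∈ Finset.range d, exp (2 * (Real.pi : ℂ) * I * (k : ℂ) * ((j : ℂ) / (d : ℂ))) =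
      if d ∣ k then (d : ℂ) else 0 := by
  have hd0 : (d : ℂ) ≠ 0 := by exact_mod_cast hd.ne'
  have hprim := Complex.isPrimitiveRoot_exp d hd.ne'
  have hterm : ∀ j : ℕ, exp (2 * (Real.pi : ℂ) * I * (k : ℂ) * ((j : ℂ) / (d : ℂ))) =
      (exp (2 * (Real.pi : ℂ) * I / (d : ℂ)) ^ k) ^ j := by
    intro j
    rw [← pow_mul, ← Complex.exp_nat_mul]
    congr 1
    push_cast
    ring
  simp only [hterm]
  split_ifs with h
  · have h1 : exp (2 * (Real.pi : ℂ) * I / (d : ℂ)) ^ k = 1 := (hprim.pow_eq_one_iff_dvd k).2 h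
    rw [h1]
    simp
  · have h1 : exp (2 * (Real.pi : ℂ) * I / (d : ℂ)) ^ k ≠ 1 := fun h1 =>
      h ((hprim.pow_eq_one_iff_dvd k).1 h1)
    rw [geom_sum_eq h1]
    have h2 : (exp (2 * (Real.pi : ℂ) * I / (d : ℂ)) ^ k) ^ d = 1 := by
      rw [← pow_mul, mul_comm k d, pow_mul, hprim.pow_eq_one, one_pow]
    rw [h2, sub_self, zero_div]

theorem tf_UH_div {τ : ℂ} (hτ : τ ∈ UH) {a d j : ℕ} (ha : 0 < a) (hd : 0 < d) :
    ((a : ℂ) * τ + (j : ℂ)) / (d : ℂ) ∈ UH := by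
  have hτ' : 0 < τ.im := hτ
  change 0 < (((a : ℂ) * τ + (j : ℂ)) / (d : ℂ)).im
  rw [Complex.div_natCast_im]
  have : ((a : ℂ) * τ + (j : ℂ)).im = a * τ.im := by simp
  rw [this]
  positivity

theorem tf_inner {M : ℕ} {b : ℕ → ℂ} (hb : Cusp M b) {τ : ℂ} (hτ : τ ∈ UH) {a d : ℕ}
    (ha : 0 < a) (hd : 0 < d) :
    ∑ j ∈ Finset.range d, Fs b (((a : ℂ) * τ + (j : ℂ)) / (d : ℂ)) =
      ∑' k : ℕ, b (d * k) / (k : ℂ) * exp (2 * (Real.pi : ℂ) * I * ((a * k : ℕ) : ℂ) * τ) := by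
  have hd0 : (d : ℂ) ≠ 0 := by exact_mod_cast hd.ne'
  unfold Fs
  rw [← Summable.tsum_finsetSum (fun j _ => tf_summable hb (tf_UH_div hτ ha hd))]
  have h1 : ∀ k : ℕ, ∑ j ∈ Finset.range d, b k / (k : ℂ) *
      exp (2 * (Real.pi : ℂ) * I * (k : ℂ) * (((a : ℂ) * τ + (j : ℂ)) / (d : ℂ))) =
      if d ∣ k then b k / (k : ℂ) * (d : ℂ) *
        exp (2 * (Real.pi : ℂ) * I * (k : ℂ) * (((a : ℂ) * τ) / (d : ℂ))) else 0 := by
    intro k
    have h2 : ∀ j : ℕ, b k / (k : ℂ) *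
        exp (2 * (Real.pi : ℂ) * I * (k : ℂ) * (((a : ℂ) * τ + (j : ℂ)) / (d : ℂ))) =
        b k / (k : ℂ) * exp (2 * (Real.pi : ℂ) * I * (k : ℂ) * (((a : ℂ) * τ) / (d : ℂ))) *
          exp (2 * (Real.pi : ℂ) * I * (k : ℂ) * ((j : ℂ) / (d : ℂ))) := by
      intro j
      rw [mul_assoc (b k / (k : ℂ)), ← Complex.exp_add]
      congr 2
      ring
    rw [Finset.sum_congr rfl (fun j _ => h2 j), ← Finset.mul_sum, tf_rootsum d k hd]
    split_ifs
    · ring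
    · simp
  simp only [h1]
  have hinj : Function.Injective (fun k : ℕ => d * k) := fun x y h =>
    Nat.eq_of_mul_eq_mul_left hd h
  rw [← hinj.tsum_eq (f := fun k : ℕ => if d ∣ k then b k / (k : ℂ) * (d : ℂ) *
        exp (2 * (Real.pi : ℂ) * I * (k : ℂ) * (((a : ℂ) * τ) / (d : ℂ))) else 0)]
  · refine tsum_congr fun k => ?_
    simp only [dvd_mul_right, if_true]
    rcases Nat.eq_zero_or_pos k with rfl | hk
    · simp
    · have hk0 : (k : ℂ) ≠ 0 := by exact_mod_cast hk.ne'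
      have e1 : b (d * k) / ((d * k : ℕ) : ℂ) * (d : ℂ) = b (d * k) / (k : ℂ) := by
        push_cast
        field_simp
      rw [e1]
      congr 2
      push_cast
      field_simp
  · intro k hk
    by_contra hnot
    apply hk
    have : ¬ d ∣ k := fun ⟨c, hc⟩ => hnot ⟨c, hc.symm⟩
    simp [this]

theorem tf_outer {b : ℕ → ℂ} {τ : ℂ} {n a : ℕ} (ha : a ∈ n.divisors) :
    ∑' k : ℕ, b ((n / a) * k) / (k : ℂ) * exp (2 * (Real.pi : ℂ) * I * ((a * k : ℕ) : ℂ) * τ) =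
      ∑' r : ℕ, if a ∣ r then (a : ℂ) * b (n * r / a ^ 2) / (r : ℂ) *
        exp (2 * (Real.pi : ℂ) * I * (r : ℂ) * τ) else 0 := by
  have hn : a ∣ n := Nat.dvd_of_mem_divisors ha
  have hn0 : n ≠ 0 := (Nat.mem_divisors.1 ha).2
  have ha0 : 0 < a := Nat.pos_of_mem_divisors ha
  have ha0' : (a : ℂ) ≠ 0 := by exact_mod_cast ha0.ne'
  have hinj : Function.Injective (fun k : ℕ => a * k) := fun x y h =>
    Nat.eq_of_mul_eq_mul_left ha0 h
  rw [← hinj.tsum_eq (f := fun r : ℕ => if a ∣ r then (a : ℂ) * b (n * r / a ^ 2) / (r : ℂ) *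
        exp (2 * (Real.pi : ℂ) * I * (r : ℂ) * τ) else 0)]
  · refine tsum_congr fun k => ?_
    simp only [dvd_mul_right, if_true]
    obtain ⟨c, rfl⟩ := hn
    have e0 : a * c / a = c := Nat.mul_div_cancel_left c ha0
    have e1 : a * c * (a * k) / a ^ 2 = c * k := by
      have : a * c * (a * k) = a ^ 2 * (c * k) := by ring
      rw [this, Nat.mul_div_cancel_left _ (by positivity)]
    rw [e0, e1]
    rcases Nat.eq_zero_or_pos k with rfl | hk
    · simp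
    · have hk0 : (k : ℂ) ≠ 0 := by exact_mod_cast hk.ne'
      congr 1
      push_cast
      field_simp
  · intro k hk
    by_contra hnot
    apply hk
    have : ¬ a ∣ k := fun ⟨c, hc⟩ => hnot ⟨c, hc.symm⟩
    simp [this]

theorem tf_summable_outer {M : ℕ} {b : ℕ → ℂ} (hb : Cusp M b) {τ : ℂ} (hτ : τ ∈ UH) {n a : ℕ}
    (ha : a ∈ n.divisors) :
    Summable (fun r : ℕ => if a ∣ r then (a : ℂ) * b (n * r / a ^ 2) / (r : ℂ) *
        exp (2 * (Real.pi : ℂ) * I * (r : ℂ) * τ) else 0) := by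
  have hn : a ∣ n := Nat.dvd_of_mem_divisors ha
  have hn0 : n ≠ 0 := (Nat.mem_divisors.1 ha).2
  have ha0 : 0 < a := Nat.pos_of_mem_divisors ha
  have ha0' : (a : ℂ) ≠ 0 := by exact_mod_cast ha0.ne'
  obtain ⟨c, rfl⟩ := hn
  have hc0 : 0 < c := Nat.pos_of_ne_zero fun h => hn0 (by rw [h, mul_zero])
  have hc0' : (c : ℂ) ≠ 0 := by exact_mod_cast hc0.ne'
  have hinj : Function.Injective (fun k : ℕ => a * k) := fun x y h =>
    Nat.eq_of_mul_eq_mul_left ha0 h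
  have hinjc : Function.Injective (fun k : ℕ => c * k) := fun x y h =>
    Nat.eq_of_mul_eq_mul_left hc0 h
  have hτc : ((a : ℂ) * τ + ((0 : ℕ) : ℂ)) / (c : ℂ) ∈ UH := tf_UH_div hτ ha0 hc0
  have hs := ((tf_summable hb hτc).comp_injective hinjc).mul_left (c : ℂ)
  rw [← hinj.summable_iff]
  · refine hs.congr fun k => ?_
    simp only [Function.comp, dvd_mul_right, if_true]
    have e1 : a * c * (a * k) / a ^ 2 = c * k := by
      have : a * c * (a * k) = a ^ 2 * (c * k) := by ring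
      rw [this, Nat.mul_div_cancel_left _ (by positivity)]
    rw [e1]
    rcases Nat.eq_zero_or_pos k with rfl | hk
    · simp
    · have hk0 : (k : ℂ) ≠ 0 := by exact_mod_cast hk.ne'
      have e2 : (2 * (Real.pi : ℂ) * I * ((c * k : ℕ) : ℂ) * (((a : ℂ) * τ + ((0 : ℕ) : ℂ)) / (c : ℂ)))
          = 2 * (Real.pi : ℂ) * I * ((a * k : ℕ) : ℂ) * τ := by
        push_cast
        field_simp
        ring
      rw [e2]
      push_cast
      field_simp
  · intro k hk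
    have : ¬ a ∣ k := fun ⟨c, hc⟩ => hk ⟨c, hc.symm⟩
    simp [this]

theorem tf_Tn {V : Type} [AddCommMonoid V] (n : ℕ) (hn : 1 ≤ n) (f : ℕ → ℕ → ℕ → V) :
    ∑ t ∈ Tn n, f t.1 t.2.1 t.2.2 =
      ∑ a ∈ n.divisors, ∑ j ∈ Finset.range (n / a), f a j (n / a) := by
  rw [Finset.sum_sigma']
  refine Finset.sum_bij' (fun t _ => (⟨t.1, t.2.1⟩ : (_ : ℕ) × ℕ))
    (fun s _ => (s.1, s.2, n / s.1)) ?_ ?_ ?_ ?_ ?_
  · intro t ht
    simp only [Tn, Finset.mem_filter, Finset.mem_product, Finset.mem_range] at ht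
    obtain ⟨⟨h1, h2, h3⟩, h4, h5⟩ := ht
    have ha : 0 < t.1 := Nat.pos_of_ne_zero fun h => by rw [h, zero_mul] at h4; omega
    simp only [Finset.mem_sigma, Nat.mem_divisors, Finset.mem_range]
    refine ⟨⟨⟨t.2.2, h4.symm⟩, by omega⟩, ?_⟩
    rw [← h4, Nat.mul_div_cancel_left _ ha]
    exact h5
  · intro s hs
    simp only [Finset.mem_sigma, Nat.mem_divisors, Finset.mem_range] at hs
    obtain ⟨⟨⟨c, hc⟩, h2⟩, h3⟩ := hs
    have ha : 0 < s.1 := Nat.pos_of_ne_zero fun h => by rw [h, zero_mul] at hc; omega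
    have hdc : n / s.1 = c := by
      conv_lhs => rw [hc]
      exact Nat.mul_div_cancel_left _ ha
    rw [hdc] at h3
    have hcpos : 0 < c := by omega
    simp only [Tn, Finset.mem_filter, Finset.mem_product, Finset.mem_range]
    rw [hdc]
    refine ⟨⟨?_, ?_, ?_⟩, hc.symm, h3⟩
    · have : s.1 * 1 ≤ s.1 * c := Nat.mul_le_mul_left _ hcpos
      omega
    · have : 1 * c ≤ s.1 * c := Nat.mul_le_mul_right _ ha
      omega
    · have : 1 * c ≤ s.1 * c := Nat.mul_le_mul_right _ ha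
      omega
  · intro t ht
    simp only [Tn, Finset.mem_filter, Finset.mem_product, Finset.mem_range] at ht
    obtain ⟨⟨h1, h2, h3⟩, h4, h5⟩ := ht
    have ha : 0 < t.1 := Nat.pos_of_ne_zero fun h => by rw [h, zero_mul] at h4; omega
    have : n / t.1 = t.2.2 := by rw [← h4, Nat.mul_div_cancel_left _ ha]
    simp only [this]
  · intro s hs
    rfl
  · intro t ht
    simp only [Tn, Finset.mem_filter, Finset.mem_product, Finset.mem_range] at ht
    obtain ⟨⟨h1, h2, h3⟩, h4, h5⟩ := ht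
    have ha : 0 < t.1 := Nat.pos_of_ne_zero fun h => by rw [h, zero_mul] at h4; omega
    have : n / t.1 = t.2.2 := by rw [← h4, Nat.mul_div_cancel_left _ ha]
    simp only [this]

theorem st_TF : ST_TF := by
  intro M n b hM hn hb τ hτ
  rw [tf_Tn n hn (fun a j d => Fs b (((a : ℂ) * τ + (j : ℂ)) / (d : ℂ)))]
  have h1 : ∀ a ∈ n.divisors, ∑ j ∈ Finset.range (n / a),
      Fs b (((a : ℂ) * τ + (j : ℂ)) / ((n / a : ℕ) : ℂ)) =
      ∑' r : ℕ, if a ∣ r then (a : ℂ) * b (n * r / a ^ 2) / (r : ℂ) *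
        exp (2 * (Real.pi : ℂ) * I * (r : ℂ) * τ) else 0 := by
    intro a ha
    have ha0 : 0 < a := Nat.pos_of_mem_divisors ha
    have hd0 : 0 < n / a := Nat.div_pos (Nat.divisor_le ha) ha0
    rw [tf_inner hb hτ ha0 hd0, tf_outer ha]
  rw [Finset.sum_congr rfl h1, ← Summable.tsum_finsetSum (fun a ha => tf_summable_outer hb hτ ha)]
  unfold Fs
  refine tsum_congr fun r => ?_
  rw [← Finset.sum_filter]
  have h2 : n.divisors.filter (fun a => a ∣ r) = (Nat.gcd n r).divisors := by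
    ext a
    simp only [Finset.mem_filter, Nat.mem_divisors, Nat.dvd_gcd_iff, ne_eq, Nat.gcd_eq_zero_iff,
      not_and]
    constructor
    · rintro ⟨⟨h1, h2⟩, h3⟩
      exact ⟨⟨h1, h3⟩, fun h => absurd h h2⟩
    · rintro ⟨⟨h1, h2⟩, -⟩
      exact ⟨⟨h1, by omega⟩, h2⟩
  rw [h2, Finset.sum_div, Finset.sum_mul]

end Pool.Agent.Helper96.MP
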